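import Mathlib

/-! Abstract multi-shift Chapman–Robbins inequality for lattice Gaussians. -/

set_option autoImplicit false

open Finset

namespace Pool.Agent.Y977.DG

variable {V : Type*} [AddCommGroup V]

/-- Multi-shift Chapman–Robbins inequality: `V` an abelian group, `w = exp (-Q)` with `Q` quadratic
(polar form `B`), `ℓ` additive with `ℓ (g i) = 1`. Then
`(#s)^2 * Z ≤ (∑_{i,j} (exp (2 B (g i) (g j)) - 1)) * ∑ ℓ^2 w`. -/
theorem chapman_robbins (Q : V → ℝ) (B : V → V → ℝ)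
    (hQ : ∀ φ a b, Q (φ - a) + Q (φ - b) = Q φ + Q (φ - (a + b)) - 2 * B a b)
    (ℓ : V →+ ℝ)
    (h0 : Summable (fun φ => Real.exp (-Q φ)))
    (h2 : Summable (fun φ => ℓ φ ^ 2 * Real.exp (-Q φ)))
    {ι : Type*} (s : Finset ι) (g : ι → V) (hg : ∀ i ∈ s, ℓ (g i) = 1) :
    ((s.card : ℝ)) ^ 2 * (∑' φ, Real.exp (-Q φ))
      ≤ (∑ i ∈ s, ∑ j ∈ s, (Real.exp (2 * B (g i) (g j)) - 1))
        * (∑' φ, ℓ φ ^ 2 * Real.exp (-Q φ)) := by
  classical
  set w : V → ℝ := fun φ => Real.exp (-Q φ) with hw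
  have hwpos : ∀ φ, 0 < w φ := fun φ => Real.exp_pos _
  set Z : ℝ := ∑' φ, w φ with hZ
  set M : ℝ := ∑' φ, ℓ φ ^ 2 * w φ with hM
  have hZpos : 0 < Z := h0.tsum_pos (fun φ => (hwpos φ).le) 0 (hwpos 0)
  -- summability of the first moment
  have h1 : Summable (fun φ => ℓ φ * w φ) := by
    refine Summable.of_norm_bounded (g := fun φ => w φ + ℓ φ ^ 2 * w φ) (h0.add h2) (fun φ => ?_)
    rw [Real.norm_eq_abs, abs_mul, abs_of_pos (hwpos φ)]
    have h3 : |ℓ φ| ≤ 1 + ℓ φ ^ 2 := by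
      rw [← sq_abs (ℓ φ)]
      nlinarith [sq_nonneg (|ℓ φ| - 1), abs_nonneg (ℓ φ)]
    calc |ℓ φ| * w φ ≤ (1 + ℓ φ ^ 2) * w φ := mul_le_mul_of_nonneg_right h3 (hwpos φ).le
      _ = w φ + ℓ φ ^ 2 * w φ := by ring
  -- shifted sums
  have hs0 : ∀ a : V, Summable (fun φ => w (φ - a)) := fun a =>
    (Equiv.subRight a).summable_iff.2 h0
  have ht0 : ∀ a : V, ∑' φ, w (φ - a) = Z := fun a => (Equiv.subRight a).tsum_eq w
  have hs1 : ∀ a : V, Summable (fun φ => ℓ φ * w (φ - a)) := by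
    intro a
    have h4 : Summable (fun φ => (ℓ φ + ℓ a) * w φ) := by
      simp only [add_mul]
      exact h1.add (h0.mul_left _)
    have h5 := (Equiv.subRight a).summable_iff.2 h4
    refine h5.congr (fun φ => ?_)
    simp [Function.comp]
  have ht1 : ∀ a : V, ∑' φ, ℓ φ * w (φ - a) = (∑' φ, ℓ φ * w φ) + ℓ a * Z := by
    intro a
    have h5 := (Equiv.subRight a).tsum_eq (fun φ => (ℓ φ + ℓ a) * w φ)
    have h6 : ∀ φ, (ℓ ((Equiv.subRight a) φ) + ℓ a) * w ((Equiv.subRight a) φ)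
        = ℓ φ * w (φ - a) := by
      intro φ
      simp
    simp only [h6] at h5
    rw [h5]
    simp only [add_mul]
    rw [h1.tsum_add (h0.mul_left _), tsum_mul_left]
  -- the test function times the weight
  set L : V → ℝ := fun φ => ∑ i ∈ s, (w (φ - g i) / w φ - 1) with hL
  have hwL : ∀ φ, ℓ φ * L φ * w φ = ∑ i ∈ s, (ℓ φ * w (φ - g i) - ℓ φ * w φ) := by
    intro φ
    simp only [hL, Finset.mul_sum, Finset.sum_mul]
    refine Finset.sum_congr rfl (fun i _ => ?_)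
    have := (hwpos φ).ne'
    field_simp
  have hsL1 : Summable (fun φ => ℓ φ * L φ * w φ) := by
    simp only [hwL]
    exact summable_sum (fun i _ => (hs1 _).sub h1)
  have htL1 : ∑' φ, ℓ φ * L φ * w φ = s.card * Z := by
    simp only [hwL]
    rw [Summable.tsum_finsetSum (fun i _ => (hs1 _).sub h1)]
    have : ∀ i ∈ s, ∑' φ, (ℓ φ * w (φ - g i) - ℓ φ * w φ) = Z := by
      intro i hi
      rw [(hs1 _).tsum_sub h1, ht1, hg i hi]
      ring
    rw [Finset.sum_congr rfl this]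
    simp
  have hkey : ∀ φ a b, w (φ - a) * w (φ - b) / w φ = Real.exp (2 * B a b) * w (φ - (a + b)) := by
    intro φ a b
    simp only [hw]
    rw [← Real.exp_add, ← Real.exp_sub, ← Real.exp_add]
    congr 1
    have := hQ φ a b
    linarith
  have hwL2 : ∀ φ, L φ ^ 2 * w φ = ∑ i ∈ s, ∑ j ∈ s,
      (Real.exp (2 * B (g i) (g j)) * w (φ - (g i + g j)) - w (φ - g i) - w (φ - g j) + w φ) := by
    intro φ
    simp only [hL]
    rw [sq, Finset.sum_mul_sum, Finset.sum_mul]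
    refine Finset.sum_congr rfl (fun i _ => ?_)
    rw [Finset.sum_mul]
    refine Finset.sum_congr rfl (fun j _ => ?_)
    rw [← hkey]
    have := (hwpos φ).ne'
    field_simp
    ring
  have hsL2' : ∀ i j, Summable (fun φ => Real.exp (2 * B (g i) (g j)) * w (φ - (g i + g j))
      - w (φ - g i) - w (φ - g j) + w φ) := fun i j =>
    ((((hs0 _).mul_left _).sub (hs0 _)).sub (hs0 _)).add h0
  have hsL2 : Summable (fun φ => L φ ^ 2 * w φ) := by
    simp only [hwL2]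
    exact summable_sum (fun i _ => summable_sum (fun j _ => hsL2' i j))
  have htL2 : ∑' φ, L φ ^ 2 * w φ
      = (∑ i ∈ s, ∑ j ∈ s, (Real.exp (2 * B (g i) (g j)) - 1)) * Z := by
    simp only [hwL2]
    rw [Summable.tsum_finsetSum (fun i _ => summable_sum (fun j _ => hsL2' i j)), Finset.sum_mul]
    refine Finset.sum_congr rfl (fun i _ => ?_)
    rw [Summable.tsum_finsetSum (fun j _ => hsL2' i j), Finset.sum_mul]
    refine Finset.sum_congr rfl (fun j _ => ?_)
    rw [((((hs0 _).mul_left _).sub (hs0 _)).sub (hs0 _)).tsum_add h0,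
      (((hs0 _).mul_left _).sub (hs0 _)).tsum_sub (hs0 _),
      ((hs0 _).mul_left _).tsum_sub (hs0 _), tsum_mul_left, ht0, ht0, ht0]
    ring
  set S : ℝ := ∑ i ∈ s, ∑ j ∈ s, (Real.exp (2 * B (g i) (g j)) - 1) with hS
  -- nonnegativity of the quadratic polynomial
  have hquad : ∀ t : ℝ, 0 ≤ (S * Z) * (t * t) + (-(2 * (s.card * Z))) * t + M := by
    intro t
    have h7 : ∀ φ, (ℓ φ - t * L φ) ^ 2 * w φ
        = ℓ φ ^ 2 * w φ - (2 * t) * (ℓ φ * L φ * w φ) + t ^ 2 * (L φ ^ 2 * w φ) := by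
      intro φ
      ring
    have h8 : 0 ≤ ∑' φ, (ℓ φ - t * L φ) ^ 2 * w φ :=
      tsum_nonneg (fun φ => mul_nonneg (sq_nonneg _) (hwpos φ).le)
    simp only [h7] at h8
    rw [(h2.sub (hsL1.mul_left _)).tsum_add (hsL2.mul_left _),
      h2.tsum_sub (hsL1.mul_left _), tsum_mul_left, tsum_mul_left, htL1, htL2] at h8
    have : (∑' φ, ℓ φ ^ 2 * w φ) = M := rfl
    rw [this] at h8
    linarith
  have hd := discrim_le_zero hquad
  rw [discrim] at hd
  have h9 : (s.card : ℝ) ^ 2 * Z * Z ≤ S * M * Z := by nlinarith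
  exact le_of_mul_le_mul_right h9 hZpos

end Pool.Agent.Y977.DG
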