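import Mathlib
import Pool.Agent.Y977.DG.Abs

/-! The long-range discrete Gaussian chain: energy, summability, coercivity. -/

set_option autoImplicit false

open Finset

namespace Pool.Agent.Y977.DG

/-- The kernel `|d|^{-α}` (and `0` for `d = 0`). -/
noncomputable def h (α : ℝ) (d : ℤ) : ℝ := if d = 0 then 0 else ((|d| : ℤ) : ℝ) ^ (-α)

lemma h_nonneg (α : ℝ) (d : ℤ) : 0 ≤ h α d := by
  unfold h
  split_ifs
  · exact le_refl _
  · positivity

lemma h_neg (α : ℝ) (d : ℤ) : h α (-d) = h α d := by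
  unfold h
  simp

lemma h_sub_comm (α : ℝ) (x y : ℤ) : h α (x - y) = h α (y - x) := by
  rw [← h_neg, neg_sub]

lemma h_eq {α : ℝ} (hα : α ≠ 0) (d : ℤ) : h α d = |(d : ℝ)| ^ (-α) := by
  unfold h
  split_ifs with hd
  · subst hd
    simp [Real.zero_rpow (neg_ne_zero.2 hα)]
  · rw [Int.cast_abs]

lemma summable_h {α : ℝ} (hα : 1 < α) : Summable (h α) := by
  refine (Real.summable_abs_int_rpow hα).congr (fun d => ?_)
  rw [h_eq (by linarith)]

lemma summable_h_sub {α : ℝ} (hα : 1 < α) (x : ℤ) : Summable (fun y : ℤ => h α (x - y)) := by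
  have h1 : Summable (h α ∘ (Equiv.subLeft x)) := (Equiv.subLeft x).summable_iff.2 (summable_h hα)
  have h2 : (fun y : ℤ => h α (x - y)) = h α ∘ (Equiv.subLeft x) := by
    funext y
    rw [Function.comp_apply, Equiv.subLeft_apply]
  rw [h2]
  exact h1

/-- configurations vanishing outside `[-N, N]` -/
def Om (N : ℕ) : AddSubgroup (ℤ → ℤ) where
  carrier := {φ | ∀ x : ℤ, (N : ℤ) < |x| → φ x = 0}
  zero_mem' := fun _ _ => rfl
  add_mem' := by
    intro a b ha hb x hx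
    simp [ha x hx, hb x hx]
  neg_mem' := by
    intro a ha x hx
    simp [ha x hx]

/-- a function supported in `[-N, N]` is bounded -/
lemma exists_bound (N : ℕ) {f : ℤ → ℝ} (hf : ∀ x : ℤ, (N : ℤ) < |x| → f x = 0) :
    ∃ M : ℝ, 0 ≤ M ∧ ∀ x, |f x| ≤ M := by
  have hs : ∀ x, 0 ≤ |f x| := fun x => abs_nonneg _
  refine ⟨∑ x ∈ Finset.Icc (-(N : ℤ)) N, |f x|, Finset.sum_nonneg (fun x _ => hs x), fun x => ?_⟩
  by_cases hx : |x| ≤ (N : ℤ)
  · have h1 : x ∈ Finset.Icc (-(N : ℤ)) N := by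
      rw [Finset.mem_Icc]
      exact abs_le.1 hx
    exact Finset.single_le_sum (f := fun x => |f x|) (s := Finset.Icc (-(N : ℤ)) N)
      (fun x _ => hs x) h1
  · rw [hf x (not_le.1 hx), abs_zero]
    exact Finset.sum_nonneg (fun x _ => hs x)

lemma summable_ind {α : ℝ} (hα : 1 < α) (N : ℕ) :
    Summable (fun p : ℤ × ℤ => h α (p.1 - p.2) * (if |p.1| ≤ (N : ℤ) then (1 : ℝ) else 0)) := by
  have hnn : (0 : ℤ × ℤ → ℝ) ≤
      (fun p : ℤ × ℤ => h α (p.1 - p.2) * (if |p.1| ≤ (N : ℤ) then (1 : ℝ) else 0)) := by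
    intro p
    exact mul_nonneg (h_nonneg _ _) (by split_ifs <;> norm_num)
  rw [summable_prod_of_nonneg hnn]
  constructor
  · intro x
    exact (summable_h_sub hα x).mul_right (if |x| ≤ (N : ℤ) then (1 : ℝ) else 0)
  · refine summable_of_ne_finset_zero (s := Finset.Icc (-(N : ℤ)) N) (fun x hx => ?_)
    have hx' : ¬ |x| ≤ (N : ℤ) := by
      intro h
      exact hx (Finset.mem_Icc.2 (abs_le.1 h))
    simp only [if_neg hx', mul_zero, tsum_zero]

lemma summable_ind' {α : ℝ} (hα : 1 < α) (N : ℕ) :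
    Summable (fun p : ℤ × ℤ => h α (p.1 - p.2) * (if |p.2| ≤ (N : ℤ) then (1 : ℝ) else 0)) := by
  have := (Equiv.prodComm ℤ ℤ).summable_iff.2 (summable_ind hα N)
  refine this.congr (fun p => ?_)
  simp only [Function.comp, Equiv.prodComm_apply, Prod.fst_swap, Prod.snd_swap]
  rw [h_sub_comm]
  split_ifs <;> rfl

/-- general summability of the bilinear terms -/
lemma summable_bil {α : ℝ} (hα : 1 < α) {N : ℕ} {f g : ℤ → ℝ}
    (hf : ∀ x : ℤ, (N : ℤ) < |x| → f x = 0) (hg : ∀ x : ℤ, (N : ℤ) < |x| → g x = 0) :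
    Summable (fun p : ℤ × ℤ => h α (p.1 - p.2) * ((f p.1 - f p.2) * (g p.1 - g p.2))) := by
  obtain ⟨Mf, hMf0, hMf⟩ := exists_bound N hf
  obtain ⟨Mg, hMg0, hMg⟩ := exists_bound N hg
  refine Summable.of_norm_bounded
    (g := fun p : ℤ × ℤ => (4 * Mf * Mg) *
      (h α (p.1 - p.2) * (if |p.1| ≤ (N : ℤ) then (1 : ℝ) else 0)
        + h α (p.1 - p.2) * (if |p.2| ≤ (N : ℤ) then (1 : ℝ) else 0)))
    (((summable_ind hα N).add (summable_ind' hα N)).mul_left _) (fun p => ?_)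
  rw [Real.norm_eq_abs, abs_mul, abs_of_nonneg (h_nonneg _ _), abs_mul]
  have hh := h_nonneg α (p.1 - p.2)
  have h1 : |f p.1 - f p.2| ≤ 2 * Mf := by
    calc |f p.1 - f p.2| ≤ |f p.1| + |f p.2| := abs_sub _ _
      _ ≤ 2 * Mf := by linarith [hMf p.1, hMf p.2]
  have h2 : |g p.1 - g p.2| ≤ 2 * Mg := by
    calc |g p.1 - g p.2| ≤ |g p.1| + |g p.2| := abs_sub _ _
      _ ≤ 2 * Mg := by linarith [hMg p.1, hMg p.2]
  have h3 : |f p.1 - f p.2| * |g p.1 - g p.2| ≤ 4 * Mf * Mg := by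
    calc |f p.1 - f p.2| * |g p.1 - g p.2| ≤ (2 * Mf) * (2 * Mg) :=
          mul_le_mul h1 h2 (abs_nonneg _) (by linarith)
      _ = 4 * Mf * Mg := by ring
  by_cases hp1 : |p.1| ≤ (N : ℤ)
  · rw [if_pos hp1]
    split_ifs
    · nlinarith [mul_le_mul_of_nonneg_left h3 hh, mul_nonneg (mul_nonneg hMf0 hMg0) hh]
    · nlinarith [mul_le_mul_of_nonneg_left h3 hh, mul_nonneg (mul_nonneg hMf0 hMg0) hh]
  · by_cases hp2 : |p.2| ≤ (N : ℤ)
    · rw [if_pos hp2, if_neg hp1]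
      nlinarith [mul_le_mul_of_nonneg_left h3 hh, mul_nonneg (mul_nonneg hMf0 hMg0) hh]
    · rw [if_neg hp1, if_neg hp2, hf p.1 (not_le.1 hp1), hf p.2 (not_le.1 hp2)]
      simp

/-- the bilinear form (sum over ordered pairs) -/
noncomputable def Bl (α : ℝ) (f g : ℤ → ℝ) : ℝ :=
  ∑' p : ℤ × ℤ, h α (p.1 - p.2) * ((f p.1 - f p.2) * (g p.1 - g p.2))

/-- the energy (sum over ordered pairs) -/
noncomputable def En (α : ℝ) (f : ℤ → ℝ) : ℝ :=
  ∑' p : ℤ × ℤ, h α (p.1 - p.2) * (f p.1 - f p.2) ^ 2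

lemma En_eq_Bl (α : ℝ) (f : ℤ → ℝ) : En α f = Bl α f f := by
  unfold En Bl
  simp only [sq]

lemma Bl_comm (α : ℝ) (f g : ℤ → ℝ) : Bl α f g = Bl α g f := by
  unfold Bl
  refine tsum_congr (fun p => ?_)
  ring

lemma En_nonneg (α : ℝ) (f : ℤ → ℝ) : 0 ≤ En α f :=
  tsum_nonneg (fun _ => mul_nonneg (h_nonneg _ _) (sq_nonneg _))

/-- parallelogram type identity -/
lemma En_ident {α : ℝ} (hα : 1 < α) {N : ℕ} {f a b : ℤ → ℝ}
    (hf : ∀ x : ℤ, (N : ℤ) < |x| → f x = 0) (ha : ∀ x : ℤ, (N : ℤ) < |x| → a x = 0)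
    (hb : ∀ x : ℤ, (N : ℤ) < |x| → b x = 0) :
    En α (fun x => f x - a x) + En α (fun x => f x - b x)
      = En α f + En α (fun x => f x - (a x + b x)) - 2 * Bl α a b := by
  have e : ∀ u : ℤ → ℝ, (∀ x : ℤ, (N : ℤ) < |x| → u x = 0) →
      Summable (fun p : ℤ × ℤ => h α (p.1 - p.2) * (u p.1 - u p.2) ^ 2) := by
    intro u hu
    have := summable_bil hα hu hu
    simpa only [sq] using this
  have h1 := e (fun x => f x - a x) (fun x hx => by simp [hf x hx, ha x hx])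
  have h2 := e (fun x => f x - b x) (fun x hx => by simp [hf x hx, hb x hx])
  have h3 := e f hf
  have h4 := e (fun x => f x - (a x + b x)) (fun x hx => by simp [hf x hx, ha x hx, hb x hx])
  have h5 := (summable_bil hα ha hb).mul_left 2
  unfold En Bl
  rw [← h1.tsum_add h2, ← h3.tsum_add h4, ← tsum_mul_left, ← (h3.add h4).tsum_sub h5]
  refine tsum_congr (fun p => ?_)
  ring

lemma En_sub {α : ℝ} (hα : 1 < α) {N : ℕ} {f a : ℤ → ℝ}
    (hf : ∀ x : ℤ, (N : ℤ) < |x| → f x = 0) (ha : ∀ x : ℤ, (N : ℤ) < |x| → a x = 0) :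
    En α (fun x => f x - a x) = En α f - 2 * Bl α f a + En α a := by
  have h3 := summable_bil hα hf hf
  have h5 := (summable_bil hα hf ha).mul_left 2
  have h6 := summable_bil hα ha ha
  rw [En_eq_Bl, En_eq_Bl, En_eq_Bl]
  unfold Bl
  rw [← tsum_mul_left, ← h3.tsum_sub h5, ← (h3.sub h5).tsum_add h6]
  refine tsum_congr (fun p => ?_)
  ring

/-- coercivity on a box -/
lemma coercive {α : ℝ} (hα : 1 < α) {N : ℕ} {f : ℤ → ℝ}
    (hf : ∀ x : ℤ, (N : ℤ) < |x| → f x = 0) :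
    ((2 * N + 1 : ℕ) : ℝ) ^ (-α) * ∑ x ∈ Finset.Icc (-(N : ℤ)) N, f x ^ 2 ≤ En α f := by
  have hs : Summable (fun p : ℤ × ℤ => h α (p.1 - p.2) * (f p.1 - f p.2) ^ 2) := by
    have := summable_bil hα hf hf
    simpa only [sq] using this
  have hinj : Function.Injective (fun x : ℤ => (x, (N : ℤ) + 1)) := by
    intro a b hab
    simpa using hab
  have h1 := hs.sum_le_tsum ((Finset.Icc (-(N : ℤ)) N).map ⟨_, hinj⟩)
    (fun p _ => mul_nonneg (h_nonneg _ _) (sq_nonneg _))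
  rw [Finset.sum_map] at h1
  refine le_trans ?_ h1
  rw [Finset.mul_sum]
  refine Finset.sum_le_sum (fun x hx => ?_)
  rw [Finset.mem_Icc] at hx
  simp only [Function.Embedding.coeFn_mk]
  have hN : f ((N : ℤ) + 1) = 0 := hf _ (by rw [abs_of_nonneg (by omega)]; omega)
  rw [hN, sub_zero]
  refine mul_le_mul_of_nonneg_right ?_ (sq_nonneg _)
  rw [h_eq (by linarith)]
  have h2 : |((x - ((N : ℤ) + 1) : ℤ) : ℝ)| = (N : ℝ) + 1 - x := by
    rw [abs_of_nonpos]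
    · push_cast; ring
    · have : x - ((N : ℤ) + 1) ≤ 0 := by omega
      exact_mod_cast this
  rw [h2]
  have hx1 : (-(N : ℝ)) ≤ x := by exact_mod_cast hx.1
  have hx2 : (x : ℝ) ≤ N := by exact_mod_cast hx.2
  apply Real.rpow_le_rpow_of_nonpos
  · linarith
  · push_cast; linarith
  · linarith

lemma summable_pi_prod {ι : Type*} [Fintype ι] [DecidableEq ι] {f : ℤ → ℝ} (hf0 : ∀ n, 0 ≤ f n)
    (hf : Summable f) : Summable (fun ψ : ι → ℤ => ∏ i, f (ψ i)) := by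
  refine summable_of_sum_le (c := ∏ _i : ι, ∑' n, f n)
    (fun ψ => Finset.prod_nonneg (fun i _ => hf0 _)) (fun s => ?_)
  calc ∑ ψ ∈ s, ∏ i, f (ψ i)
      ≤ ∑ ψ ∈ Fintype.piFinset (fun i => s.image (fun ψ => ψ i)), ∏ i, f (ψ i) := by
        refine Finset.sum_le_sum_of_subset_of_nonneg ?_
          (fun ψ _ _ => Finset.prod_nonneg (fun i _ => hf0 _))
        intro ψ hψ
        rw [Fintype.mem_piFinset]
        intro i
        exact Finset.mem_image_of_mem _ hψ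
    _ = ∏ i, ∑ n ∈ s.image (fun ψ => ψ i), f n := by
        rw [Finset.prod_univ_sum]
    _ ≤ ∏ _i : ι, ∑' n, f n := by
        refine Finset.prod_le_prod (fun i _ => Finset.sum_nonneg (fun _ _ => hf0 _)) (fun i _ => ?_)
        exact hf.sum_le_tsum _ (fun _ _ => hf0 _)

lemma summable_exp_sq {c : ℝ} (hc : 0 < c) : Summable (fun n : ℤ => Real.exp (-(c * (n : ℝ) ^ 2))) := by
  have h1 : Summable (fun n : ℕ => Real.exp (-(c * (n : ℝ)))) := by
    have h2 := summable_geometric_of_lt_one (Real.exp_pos (-c)).le (by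
      rw [Real.exp_lt_one_iff]; linarith)
    refine h2.congr (fun n => ?_)
    rw [← Real.exp_nat_mul]
    congr 1
    ring
  have h3 : Summable (fun n : ℕ => Real.exp (-(c * (n : ℝ) ^ 2))) := by
    refine Summable.of_nonneg_of_le (fun n => (Real.exp_pos _).le) (fun n => ?_) h1
    apply Real.exp_le_exp.2
    have : (n : ℝ) ≤ (n : ℝ) ^ 2 := by
      rcases Nat.eq_zero_or_pos n with h | h
      · subst h; simp
      · have : (1 : ℝ) ≤ n := by exact_mod_cast h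
        nlinarith
    nlinarith
  rw [summable_int_iff_summable_nat_and_neg]
  constructor
  · simpa using h3
  · simpa using h3

/-- summability of product weights over `Om N` -/
lemma summable_Om {c : ℝ} (hc : 0 < c) (N : ℕ) :
    Summable (fun φ : Om N => ∏ x ∈ Finset.Icc (-(N : ℤ)) N,
      Real.exp (-(c * ((φ.1 x : ℤ) : ℝ) ^ 2))) := by
  have h1 := summable_pi_prod (ι := (Finset.Icc (-(N : ℤ)) N : Finset ℤ))
    (f := fun n : ℤ => Real.exp (-(c * (n : ℝ) ^ 2))) (fun n => (Real.exp_pos _).le)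
    (summable_exp_sq hc)
  have hinj : Function.Injective
      (fun (φ : Om N) (x : (Finset.Icc (-(N : ℤ)) N : Finset ℤ)) => φ.1 (x : ℤ)) := by
    intro φ ψ hφψ
    apply Subtype.ext
    funext x
    by_cases hx : |x| ≤ (N : ℤ)
    · have hx' : x ∈ Finset.Icc (-(N : ℤ)) N := Finset.mem_Icc.2 (abs_le.1 hx)
      exact congrFun hφψ ⟨x, hx'⟩
    · rw [φ.2 x (not_le.1 hx), ψ.2 x (not_le.1 hx)]
  have h2 := h1.comp_injective hinj
  refine h2.congr (fun φ => ?_)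
  simp only [Function.comp]
  rw [Finset.prod_coe_sort (Finset.Icc (-(N : ℤ)) N)
    (fun x => Real.exp (-(c * ((φ.1 x : ℤ) : ℝ) ^ 2)))]

/-- real version of a configuration -/
def re {N : ℕ} (φ : Om N) : ℤ → ℝ := fun x => ((φ.1 x : ℤ) : ℝ)

lemma re_supp {N : ℕ} (φ : Om N) : ∀ x : ℤ, (N : ℤ) < |x| → re φ x = 0 := by
  intro x hx
  unfold re
  rw [φ.2 x hx]
  simp

lemma weight_le {α β : ℝ} (hα : 1 < α) (hβ : 0 < β) {N : ℕ} (φ : Om N) :
    Real.exp (-(β * En α (re φ))) ≤ ∏ x ∈ Finset.Icc (-(N : ℤ)) N,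
      Real.exp (-((β * ((2 * N + 1 : ℕ) : ℝ) ^ (-α)) * ((φ.1 x : ℤ) : ℝ) ^ 2)) := by
  rw [← Real.exp_sum]
  apply Real.exp_le_exp.2
  rw [Finset.sum_neg_distrib, neg_le_neg_iff, ← Finset.mul_sum, mul_assoc]
  exact mul_le_mul_of_nonneg_left (coercive hα (re_supp φ)) hβ.le

lemma summable_weight {α β : ℝ} (hα : 1 < α) (hβ : 0 < β) (N : ℕ) :
    Summable (fun φ : Om N => Real.exp (-(β * En α (re φ)))) := by
  refine Summable.of_nonneg_of_le (fun _ => (Real.exp_pos _).le) (fun φ => weight_le hα hβ φ)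
    (summable_Om ?_ N)
  positivity

lemma summable_sq_weight {α β : ℝ} (hα : 1 < α) (hβ : 0 < β) (N : ℕ) :
    Summable (fun φ : Om N => ((φ.1 0 : ℤ) : ℝ) ^ 2 * Real.exp (-(β * En α (re φ)))) := by
  set c : ℝ := β * ((2 * N + 1 : ℕ) : ℝ) ^ (-α) / 2 with hc
  have hc0 : 0 < c := by positivity
  refine Summable.of_nonneg_of_le (fun _ => mul_nonneg (sq_nonneg _) (Real.exp_pos _).le)
    (fun φ => ?_) ((summable_Om hc0 N).mul_left (1 / c))
  have h1 := weight_le hα hβ φ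
  have h2 : β * ((2 * N + 1 : ℕ) : ℝ) ^ (-α) = c + c := by rw [hc]; ring
  rw [h2] at h1
  have h3 : ∏ x ∈ Finset.Icc (-(N : ℤ)) N, Real.exp (-((c + c) * ((φ.1 x : ℤ) : ℝ) ^ 2))
      = (∏ x ∈ Finset.Icc (-(N : ℤ)) N, Real.exp (-(c * ((φ.1 x : ℤ) : ℝ) ^ 2)))
        * ∏ x ∈ Finset.Icc (-(N : ℤ)) N, Real.exp (-(c * ((φ.1 x : ℤ) : ℝ) ^ 2)) := by
    rw [← Finset.prod_mul_distrib]
    refine Finset.prod_congr rfl (fun x _ => ?_)
    rw [← Real.exp_add]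
    congr 1
    ring
  rw [h3] at h1
  set P := ∏ x ∈ Finset.Icc (-(N : ℤ)) N, Real.exp (-(c * ((φ.1 x : ℤ) : ℝ) ^ 2)) with hP
  have hP0 : 0 < P := Finset.prod_pos (fun _ _ => Real.exp_pos _)
  have h4 : P ≤ Real.exp (-(c * ((φ.1 0 : ℤ) : ℝ) ^ 2)) := by
    have h0 : (0 : ℤ) ∈ Finset.Icc (-(N : ℤ)) N := by
      rw [Finset.mem_Icc]; constructor <;> omega
    rw [hP, ← Finset.mul_prod_erase _ _ h0]
    refine mul_le_of_le_one_right (Real.exp_pos _).le ?_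
    refine Finset.prod_le_one (fun _ _ => (Real.exp_pos _).le) (fun x _ => ?_)
    rw [Real.exp_le_one_iff]
    have := mul_nonneg hc0.le (sq_nonneg ((φ.1 x : ℤ) : ℝ))
    linarith
  have h5 : c * ((φ.1 0 : ℤ) : ℝ) ^ 2 * Real.exp (-(c * ((φ.1 0 : ℤ) : ℝ) ^ 2)) ≤ 1 := by
    set t := c * ((φ.1 0 : ℤ) : ℝ) ^ 2
    have h6 : t ≤ Real.exp t := by linarith [Real.add_one_le_exp t]
    calc t * Real.exp (-t) ≤ Real.exp t * Real.exp (-t) :=
          mul_le_mul_of_nonneg_right h6 (Real.exp_pos _).le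
      _ = 1 := by rw [← Real.exp_add]; simp
  have h7 : ((φ.1 0 : ℤ) : ℝ) ^ 2 * P ≤ 1 / c := by
    rw [le_div_iff₀ hc0]
    calc ((φ.1 0 : ℤ) : ℝ) ^ 2 * P * c = (c * ((φ.1 0 : ℤ) : ℝ) ^ 2) * P := by ring
      _ ≤ (c * ((φ.1 0 : ℤ) : ℝ) ^ 2) * Real.exp (-(c * ((φ.1 0 : ℤ) : ℝ) ^ 2)) :=
          mul_le_mul_of_nonneg_left h4 (mul_nonneg hc0.le (sq_nonneg _))
      _ ≤ 1 := h5
  calc ((φ.1 0 : ℤ) : ℝ) ^ 2 * Real.exp (-(β * En α (re φ)))
      ≤ ((φ.1 0 : ℤ) : ℝ) ^ 2 * (P * P) := mul_le_mul_of_nonneg_left h1 (sq_nonneg _)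
    _ = (((φ.1 0 : ℤ) : ℝ) ^ 2 * P) * P := by ring
    _ ≤ (1 / c) * P := mul_le_mul_of_nonneg_right h7 hP0.le

end Pool.Agent.Y977.DG
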