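import Mathlib
import Pool.Agent.Y977.DG.Chain

/-! Energies of nested blocks. -/

set_option autoImplicit false

open Finset

namespace Pool.Agent.Y977.DG

/-- indicator of `[-k, k]` (integer valued) -/
def blk (k : ℕ) : ℤ → ℤ := fun x => if -(k : ℤ) ≤ x ∧ x ≤ k then 1 else 0

/-- indicator of `[-k, k]` (real valued) -/
noncomputable def blkR (k : ℕ) : ℤ → ℝ := fun x => if -(k : ℤ) ≤ x ∧ x ≤ k then 1 else 0

lemma blk_mem {k N : ℕ} (hk : k ≤ N) : blk k ∈ Om N := by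
  intro x hx
  unfold blk
  rw [if_neg]
  intro hh
  have := abs_le.2 hh
  omega

lemma blkR_supp {k N : ℕ} (hk : k ≤ N) : ∀ x : ℤ, (N : ℤ) < |x| → blkR k x = 0 := by
  intro x hx
  unfold blkR
  rw [if_neg]
  intro hh
  have := abs_le.2 hh
  omega

lemma re_blk {k N : ℕ} (hk : k ≤ N) : re (⟨blk k, blk_mem hk⟩ : Om N) = blkR k := by
  funext x
  unfold re blk blkR
  by_cases h1 : -(k : ℤ) ≤ x ∧ x ≤ k
  · simp only [if_pos h1, Int.cast_one]
  · simp only [if_neg h1, Int.cast_zero]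

lemma blk_prod_nonneg {j k : ℕ} (hjk : j ≤ k) (x y : ℤ) :
    0 ≤ (blkR j x - blkR j y) * (blkR k x - blkR k y) := by
  unfold blkR
  split_ifs with h1 h2 h3 h4 h5 h6 h7 h8 <;> first | (norm_num; done) | (exfalso; omega)

lemma blk_prod_le (j k : ℕ) (x y : ℤ) :
    (blkR j x - blkR j y) * (blkR k x - blkR k y) ≤ 1 := by
  unfold blkR
  split_ifs <;> norm_num

lemma inner_bound {j k : ℕ} (hjk : j ≤ k) (d : ℤ) :
    ∑' x : ℤ, (blkR j (x + d) - blkR j x) * (blkR k (x + d) - blkR k x)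
      ≤ 2 * (((|d| - ((k : ℤ) - j)).toNat : ℕ) : ℝ) := by
  obtain ⟨A, hcard, hA⟩ : ∃ A : Finset ℤ, A.card ≤ 2 * (|d| - ((k : ℤ) - j)).toNat ∧
      ∀ x ∉ A, (blkR j (x + d) - blkR j x) * (blkR k (x + d) - blkR k x) = 0 := by
    rcases le_total 0 d with hd | hd
    · refine ⟨Finset.Ioc ((k : ℤ) - d) j ∪ Finset.Ico (-(j : ℤ) - d) (-(k : ℤ)), ?_, ?_⟩
      · refine (Finset.card_union_le _ _).trans ?_
        rw [Int.card_Ioc, Int.card_Ico, abs_of_nonneg hd]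
        omega
      · intro x hx
        simp only [Finset.mem_union, Finset.mem_Ioc, Finset.mem_Ico, not_or, not_and, not_lt,
          not_le] at hx
        obtain ⟨hx1, hx2⟩ := hx
        unfold blkR
        split_ifs with h1 h2 h3 h4 h5 h6 h7 h8 <;> first | (norm_num; done) | (exfalso; omega)
    · refine ⟨Finset.Ico (-(j : ℤ)) (-(k : ℤ) - d) ∪ Finset.Ioc (k : ℤ) (j - d), ?_, ?_⟩
      · refine (Finset.card_union_le _ _).trans ?_
        rw [Int.card_Ioc, Int.card_Ico, abs_of_nonpos hd]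
        omega
      · intro x hx
        simp only [Finset.mem_union, Finset.mem_Ioc, Finset.mem_Ico, not_or, not_and, not_lt,
          not_le] at hx
        obtain ⟨hx1, hx2⟩ := hx
        unfold blkR
        split_ifs with h1 h2 h3 h4 h5 h6 h7 h8 <;> first | (norm_num; done) | (exfalso; omega)
  rw [tsum_eq_sum (s := A) (fun x hx => hA x hx)]
  calc ∑ x ∈ A, (blkR j (x + d) - blkR j x) * (blkR k (x + d) - blkR k x)
      ≤ ∑ _x ∈ A, (1 : ℝ) := Finset.sum_le_sum (fun x _ => blk_prod_le j k _ _)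
    _ = (A.card : ℝ) := by simp
    _ ≤ 2 * (((|d| - ((k : ℤ) - j)).toNat : ℕ) : ℝ) := by exact_mod_cast hcard

/-- the bound function -/
noncomputable def bb (α : ℝ) (m : ℕ) : ℝ :=
  ∑' d : ℤ, h α d * (2 * (((|d| - (m : ℤ)).toNat : ℕ) : ℝ))

lemma h_mul_abs {α : ℝ} (hα : α ≠ 0) (d : ℤ) (hd : d ≠ 0) :
    h α d * |(d : ℝ)| = |(d : ℝ)| ^ (-(α - 1)) := by
  rw [h_eq hα]
  have h1 : (0 : ℝ) < |(d : ℝ)| := abs_pos.2 (by exact_mod_cast hd)
  have h2 : -(α - 1) = -α + 1 := by ring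
  rw [h2, Real.rpow_add h1, Real.rpow_one]

lemma summable_habs {α : ℝ} (hα : 2 < α) : Summable (fun d : ℤ => h α d * |(d : ℝ)|) := by
  refine (Real.summable_abs_int_rpow (b := α - 1) (by linarith)).congr (fun d => ?_)
  by_cases hd : d = 0
  · subst hd
    have : -(α - 1) ≠ 0 := by linarith
    rw [Int.cast_zero, abs_zero, Real.zero_rpow this, mul_zero]
  · rw [h_mul_abs (by linarith) d hd]

lemma toNat_le_abs (d : ℤ) (m : ℕ) : (((|d| - (m : ℤ)).toNat : ℕ) : ℝ) ≤ |(d : ℝ)| := by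
  have h1 : ((|d| - (m : ℤ)).toNat : ℤ) ≤ |d| := by
    have := abs_nonneg d
    omega
  have h2 : (((|d| - (m : ℤ)).toNat : ℤ) : ℝ) ≤ ((|d| : ℤ) : ℝ) := by exact_mod_cast h1
  rw [Int.cast_abs] at h2
  exact_mod_cast h2

lemma summable_bb {α : ℝ} (hα : 2 < α) (m : ℕ) :
    Summable (fun d : ℤ => h α d * (2 * (((|d| - (m : ℤ)).toNat : ℕ) : ℝ))) := by
  refine Summable.of_nonneg_of_le (fun d => mul_nonneg (h_nonneg _ _) (by positivity)) (fun d => ?_)
    ((summable_habs hα).mul_left 2)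
  have h1 := toNat_le_abs d m
  have h2 := h_nonneg α d
  nlinarith

lemma bb_nonneg (α : ℝ) (m : ℕ) : 0 ≤ bb α m :=
  tsum_nonneg (fun d => mul_nonneg (h_nonneg _ _) (by positivity))

/-- energy of two nested blocks -/
lemma Bl_blk_le {α : ℝ} (hα : 2 < α) {j k : ℕ} (hjk : j ≤ k) :
    Bl α (blkR j) (blkR k) ≤ bb α (k - j) := by
  have hs := summable_bil (α := α) (by linarith) (N := k) (blkR_supp hjk) (blkR_supp (le_refl k))
  set F : ℤ × ℤ → ℝ := fun p => h α (p.1 - p.2) *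
    ((blkR j p.1 - blkR j p.2) * (blkR k p.1 - blkR k p.2)) with hF
  let e : ℤ × ℤ ≃ ℤ × ℤ :=
    { toFun := fun q => (q.2 + q.1, q.2)
      invFun := fun p => (p.1 - p.2, p.2)
      left_inv := by intro q; simp
      right_inv := by intro p; simp }
  have hse : Summable (F ∘ e) := e.summable_iff.2 hs
  have h1 : Bl α (blkR j) (blkR k) = ∑' q, (F ∘ e) q := (e.tsum_eq F).symm
  have h2 : ∀ d x : ℤ, (F ∘ e) (d, x)
      = h α d * ((blkR j (x + d) - blkR j x) * (blkR k (x + d) - blkR k x)) := by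
    intro d x
    have : x + d - x = d := by ring
    simp only [Function.comp, hF, e, Equiv.coe_fn_mk, this]
  rw [h1, hse.tsum_prod]
  have h3 : Summable (fun d : ℤ => ∑' x : ℤ, (F ∘ e) (d, x)) := hse.prod
  refine h3.tsum_le_tsum (fun d => ?_) (summable_bb hα (k - j))
  simp only [h2]
  rw [tsum_mul_left]
  refine mul_le_mul_of_nonneg_left ?_ (h_nonneg _ _)
  have h4 := inner_bound hjk d
  rw [Nat.cast_sub hjk]
  exact h4

lemma Bl_blk_nonneg (α : ℝ) {j k : ℕ} (hjk : j ≤ k) : 0 ≤ Bl α (blkR j) (blkR k) :=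
  tsum_nonneg (fun _ => mul_nonneg (h_nonneg _ _) (blk_prod_nonneg hjk _ _))

/-- `x^{-1-s} ≤ (3/s) (x^{-s} - (x+1)^{-s})` for `x ≥ 1`, `0 < s ≤ 1`. -/
lemma tail_step {s x : ℝ} (hs : 0 < s) (hs1 : s ≤ 1) (hx : 1 ≤ x) :
    x ^ (-1 - s) ≤ 3 / s * (x ^ (-s) - (x + 1) ^ (-s)) := by
  have hx0 : 0 < x := by linarith
  have hy0 : 0 < 1 / x := by positivity
  have hy1 : 1 / x ≤ 1 := by rw [div_le_one hx0]; exact hx
  have e1 : x + 1 = x * (1 + 1 / x) := by field_simp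
  have e2 : (x + 1) ^ (-s) = x ^ (-s) * (1 + 1 / x) ^ (-s) := by
    rw [e1, Real.mul_rpow hx0.le (by positivity)]
  have e3 : x ^ (-1 - s) = x ^ (-s) * (1 / x) := by
    rw [show -1 - s = -s + (-1 : ℝ) by ring, Real.rpow_add hx0, Real.rpow_neg_one, one_div]
  set y := 1 / x with hy
  have h1 : 1 - (1 + y)⁻¹ ≤ Real.log (1 + y) := Real.one_sub_inv_le_log_of_pos (by linarith)
  have h2 : 1 + s * (1 - (1 + y)⁻¹) ≤ (1 + y) ^ s := by
    rw [Real.rpow_def_of_pos (by linarith)]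
    have := Real.add_one_le_exp (Real.log (1 + y) * s)
    nlinarith
  have h3 : 1 - (1 + y)⁻¹ = y / (1 + y) := by field_simp; ring
  have h4 : (1 + y) ^ (-s) ≤ 1 - s * y / 3 := by
    rw [Real.rpow_neg (by linarith)]
    rw [h3] at h2
    have h5 : 0 < (1 + y) ^ s := Real.rpow_pos_of_pos (by linarith) s
    rw [inv_le_iff_one_le_mul₀ h5]
    have h6 : y / 2 ≤ y / (1 + y) := by
      apply div_le_div_of_nonneg_left hy0.le (by linarith) (by linarith)
    have h7 : 1 + s * y / 2 ≤ (1 + y) ^ s := by nlinarith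
    have h8 : 0 ≤ 1 - s * y / 3 := by nlinarith
    calc (1 : ℝ) ≤ (1 - s * y / 3) * (1 + s * y / 2) := by
          nlinarith [mul_pos hs hy0, mul_le_one₀ hs1 hy0.le hy1]
      _ ≤ (1 - s * y / 3) * (1 + y) ^ s := mul_le_mul_of_nonneg_left h7 h8
  have hxs : 0 < x ^ (-s) := Real.rpow_pos_of_pos hx0 _
  rw [e2, e3]
  have h9 : x ^ (-s) * (s * y / 3) ≤ x ^ (-s) - x ^ (-s) * (1 + y) ^ (-s) := by nlinarith
  calc x ^ (-s) * y = 3 / s * (x ^ (-s) * (s * y / 3)) := by field_simp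
    _ ≤ 3 / s * (x ^ (-s) - x ^ (-s) * (1 + y) ^ (-s)) :=
        mul_le_mul_of_nonneg_left h9 (by positivity)

lemma tail_sum {s : ℝ} (hs : 0 < s) (hs1 : s ≤ 1) (m : ℕ) :
    Summable (fun i : ℕ => ((i : ℝ) + (m + 1)) ^ (-1 - s)) ∧
    ∑' i : ℕ, ((i : ℝ) + (m + 1)) ^ (-1 - s) ≤ 3 / s * ((m : ℝ) + 1) ^ (-s) := by
  have hpos : ∀ i : ℕ, 0 ≤ ((i : ℝ) + (m + 1)) ^ (-1 - s) := fun i => by positivity
  have hb : ∀ n : ℕ, ∑ i ∈ Finset.range n, ((i : ℝ) + (m + 1)) ^ (-1 - s)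
      ≤ 3 / s * (((m : ℝ) + 1) ^ (-s) - ((n : ℝ) + (m + 1)) ^ (-s)) := by
    intro n
    induction n with
    | zero => simp
    | succ n ih =>
      rw [Finset.sum_range_succ]
      have h1 := tail_step hs hs1 (x := (n : ℝ) + (m + 1)) (by
        have : (0 : ℝ) ≤ n := Nat.cast_nonneg n
        have : (0 : ℝ) ≤ m := Nat.cast_nonneg m
        linarith)
      have h2 : ((n + 1 : ℕ) : ℝ) + (m + 1) = (n : ℝ) + (m + 1) + 1 := by push_cast; ring
      rw [h2]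
      calc _ ≤ 3 / s * (((m : ℝ) + 1) ^ (-s) - ((n : ℝ) + (m + 1)) ^ (-s))
            + 3 / s * (((n : ℝ) + (m + 1)) ^ (-s) - ((n : ℝ) + (m + 1) + 1) ^ (-s)) :=
            add_le_add ih h1
        _ = _ := by ring
  have hb' : ∀ n : ℕ, ∑ i ∈ Finset.range n, ((i : ℝ) + (m + 1)) ^ (-1 - s)
      ≤ 3 / s * ((m : ℝ) + 1) ^ (-s) := by
    intro n
    refine (hb n).trans ?_
    refine mul_le_mul_of_nonneg_left ?_ (by positivity)
    have : 0 ≤ ((n : ℝ) + (m + 1)) ^ (-s) := by positivity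
    linarith
  exact ⟨summable_of_sum_range_le hpos hb', Real.tsum_le_of_sum_range_le hpos hb'⟩

lemma bb_le {α : ℝ} (hα : 2 < α) (hα3 : α < 3) (m : ℕ) :
    bb α m ≤ 12 / (α - 2) * ((m : ℝ) + 1) ^ (-(α - 2)) := by
  set s := α - 2 with hs
  have hs0 : 0 < s := by rw [hs]; linarith
  have hs1 : s ≤ 1 := by rw [hs]; linarith
  set F : ℤ → ℝ := fun d => h α d * (2 * (((|d| - (m : ℤ)).toNat : ℕ) : ℝ)) with hF
  have hFs : Summable F := summable_bb hα m
  have hF0 : F 0 = 0 := by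
    simp only [hF]
    unfold h
    simp
  have hFneg : ∀ d, F (-d) = F d := by
    intro d
    simp only [hF, h_neg, abs_neg]
  have hnn := (summable_int_iff_summable_nat_and_neg.1 hFs)
  have h1 : ∑' d : ℤ, F d = 2 * ∑' n : ℕ, F (n : ℤ) := by
    have h2 := HasSum.of_nat_of_neg hnn.1.hasSum hnn.2.hasSum
    rw [h2.tsum_eq, hF0]
    simp only [hFneg]
    ring
  have h3 : ∑' n : ℕ, F (n : ℤ) ≤ 2 * (3 / s * ((m : ℝ) + 1) ^ (-s)) := by
    rw [← hnn.1.sum_add_tsum_nat_add (m + 1)]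
    have h4 : ∑ i ∈ Finset.range (m + 1), F (i : ℤ) = 0 := by
      refine Finset.sum_eq_zero (fun i hi => ?_)
      rw [Finset.mem_range] at hi
      have h5 : (|(i : ℤ)| - (m : ℤ)).toNat = 0 := by
        rw [abs_of_nonneg (by omega)]
        omega
      simp only [hF, h5]
      simp
    rw [h4, zero_add]
    obtain ⟨ht1, ht2⟩ := tail_sum hs0 hs1 m
    have h6 : ∑' i : ℕ, F ((i + (m + 1) : ℕ) : ℤ)
        ≤ ∑' i : ℕ, 2 * ((i : ℝ) + (m + 1)) ^ (-1 - s) := by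
      refine Summable.tsum_le_tsum (fun i => ?_) ((summable_nat_add_iff (m + 1)).2 hnn.1)
        (ht1.mul_left 2)
      have h7 : ((i + (m + 1) : ℕ) : ℤ) ≠ 0 := by
        push_cast; omega
      have h8 := h_mul_abs (α := α) (by linarith) _ h7
      have h9 := toNat_le_abs ((i + (m + 1) : ℕ) : ℤ) m
      have h10 := h_nonneg α ((i + (m + 1) : ℕ) : ℤ)
      have h11 : |(((i + (m + 1) : ℕ) : ℤ) : ℝ)| = (i : ℝ) + (m + 1) := by
        rw [abs_of_nonneg (by positivity)]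
        push_cast
        ring
      rw [h11] at h8 h9
      have h12 : -1 - s = -(α - 1) := by rw [hs]; ring
      rw [h12, ← h8]
      simp only [hF]
      nlinarith
    refine h6.trans ?_
    rw [tsum_mul_left]
    exact mul_le_mul_of_nonneg_left ht2 (by norm_num)
  have h13 : bb α m = ∑' d : ℤ, F d := rfl
  rw [h13, h1]
  have h14 : 12 / s * ((m : ℝ) + 1) ^ (-s) = 2 * (2 * (3 / s * ((m : ℝ) + 1) ^ (-s))) := by ring
  rw [h14]
  exact mul_le_mul_of_nonneg_left h3 (by norm_num)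

/-- `∑_{m<K} (m+1)^{-s} ≤ K^{1-s}/(1-s)`. -/
lemma sum_rpow_le {s : ℝ} (hs : 0 < s) (hs1 : s < 1) (K : ℕ) :
    ∑ m ∈ Finset.range K, ((m : ℝ) + 1) ^ (-s) ≤ (K : ℝ) ^ (1 - s) / (1 - s) := by
  have hp : 0 < 1 - s := by linarith
  induction K with
  | zero => simp [Real.zero_rpow hp.ne']
  | succ K ih =>
    rw [Finset.sum_range_succ]
    have hK : (0 : ℝ) < (K : ℝ) + 1 := by positivity
    have h1 : (K : ℝ) = ((K : ℝ) + 1) * (1 + (-(1 / ((K : ℝ) + 1)))) := by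
      field_simp
      ring
    have h2 : (-1 : ℝ) ≤ -(1 / ((K : ℝ) + 1)) := by
      rw [neg_le_neg_iff, div_le_one hK]
      linarith [Nat.cast_nonneg (α := ℝ) K]
    have h3 : (K : ℝ) ^ (1 - s) ≤ ((K : ℝ) + 1) ^ (1 - s) * (1 - (1 - s) / ((K : ℝ) + 1)) := by
      have h4 := rpow_one_add_le_one_add_mul_self h2 hp.le (by linarith : 1 - s ≤ 1)
      calc (K : ℝ) ^ (1 - s) = (((K : ℝ) + 1) * (1 + (-(1 / ((K : ℝ) + 1))))) ^ (1 - s) := by
            rw [← h1]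
        _ = ((K : ℝ) + 1) ^ (1 - s) * (1 + (-(1 / ((K : ℝ) + 1)))) ^ (1 - s) := by
            rw [Real.mul_rpow hK.le (by linarith)]
        _ ≤ ((K : ℝ) + 1) ^ (1 - s) * (1 + (1 - s) * (-(1 / ((K : ℝ) + 1)))) :=
            mul_le_mul_of_nonneg_left h4 (by positivity)
        _ = _ := by ring
    have h5 : ((K : ℝ) + 1) ^ (-s) = ((K : ℝ) + 1) ^ (1 - s) / ((K : ℝ) + 1) := by
      rw [show -s = (1 - s) + (-1 : ℝ) by ring, Real.rpow_add hK, Real.rpow_neg_one]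
      rfl
    have h6 : ((K + 1 : ℕ) : ℝ) = (K : ℝ) + 1 := by push_cast; ring
    rw [h6]
    have h7 : (K : ℝ) ^ (1 - s) / (1 - s) + ((K : ℝ) + 1) ^ (-s)
        ≤ ((K : ℝ) + 1) ^ (1 - s) / (1 - s) := by
      rw [h5, div_add_div _ _ hp.ne' hK.ne', div_le_div_iff₀ (by positivity) hp]
      have h8 := mul_le_mul_of_nonneg_left h3 (mul_nonneg hK.le hp.le)
      have h9 : ((K : ℝ) + 1) * (1 - s) * (((K : ℝ) + 1) ^ (1 - s) * (1 - (1 - s) / ((K : ℝ) + 1)))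
          = ((K : ℝ) + 1) * (1 - s) * ((K : ℝ) + 1) ^ (1 - s)
            - (1 - s) * (1 - s) * ((K : ℝ) + 1) ^ (1 - s) := by
        field_simp
      rw [h9] at h8
      nlinarith
    linarith

end Pool.Agent.Y977.DG
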