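import Mathlib
import Pool.Agent.Y977.DG.Blocks

/-! Polynomial lower bound for the variance of the long-range discrete Gaussian chain. -/

set_option autoImplicit false

open Finset

namespace Pool.Agent.Y977.DG

/-- partition function -/
noncomputable def Zs (α β : ℝ) (N : ℕ) : ℝ := ∑' φ : Om N, Real.exp (-(β * En α (re φ)))

/-- second moment times partition function -/
noncomputable def Ms (α β : ℝ) (N : ℕ) : ℝ :=
  ∑' φ : Om N, ((φ.1 0 : ℤ) : ℝ) ^ 2 * Real.exp (-(β * En α (re φ)))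

lemma Zs_pos {α β : ℝ} (hα : 1 < α) (hβ : 0 < β) (N : ℕ) : 0 < Zs α β N :=
  (summable_weight hα hβ N).tsum_pos (fun _ => (Real.exp_pos _).le) 0 (Real.exp_pos _)

/-- evaluation at the origin -/
def ev0 (N : ℕ) : Om N →+ ℝ where
  toFun φ := ((φ.1 0 : ℤ) : ℝ)
  map_zero' := by simp
  map_add' := by intro a b; simp

lemma re_sub {N : ℕ} (φ a : Om N) : re (φ - a) = fun x => re φ x - re a x := by
  funext x
  unfold re
  simp

lemma re_add {N : ℕ} (φ a : Om N) : re (φ + a) = fun x => re φ x + re a x := by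
  funext x
  unfold re
  simp

lemma re_blk' {k N : ℕ} (h : blk k ∈ Om N) : re (⟨blk k, h⟩ : Om N) = blkR k := by
  funext x
  unfold re blk blkR
  by_cases h1 : -(k : ℤ) ≤ x ∧ x ≤ k
  · simp only [if_pos h1, Int.cast_one]
  · simp only [if_neg h1, Int.cast_zero]

/-- the multi-shift inequality for the chain -/
theorem cr_chain {α β : ℝ} (hα : 1 < α) (hβ : 0 < β) (N : ℕ) :
    ((N : ℝ) + 1) ^ 2 * Zs α β N
      ≤ (∑ i ∈ Finset.range (N + 1), ∑ j ∈ Finset.range (N + 1),
          (Real.exp (2 * (β * Bl α (blkR i) (blkR j))) - 1)) * Ms α β N := by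
  have h := chapman_robbins (V := Om N) (fun φ => β * En α (re φ))
    (fun a b => β * Bl α (re a) (re b)) ?_ (ev0 N) (summable_weight hα hβ N)
    (summable_sq_weight hα hβ N) (Finset.univ : Finset (Fin (N + 1)))
    (fun i => (⟨blk i, blk_mem (Nat.lt_succ_iff.1 i.2)⟩ : Om N)) ?_
  · rw [Finset.card_univ, Fintype.card_fin] at h
    simp only [re_blk'] at h
    rw [Finset.sum_range]
    simp only [Finset.sum_range]
    push_cast at h
    exact h
  · intro φ a b
    have h1 := En_ident hα (re_supp φ) (re_supp a) (re_supp b)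
    show β * En α (re (φ - a)) + β * En α (re (φ - b))
      = β * En α (re φ) + β * En α (re (φ - (a + b))) - 2 * (β * Bl α (re a) (re b))
    rw [re_sub, re_sub, re_sub, re_add]
    linear_combination β * h1
  · intro i _
    show (((blk (i : ℕ)) 0 : ℤ) : ℝ) = 1
    unfold blk
    rw [if_pos (by constructor <;> omega)]
    simp

lemma sum_dist_le {f : ℕ → ℝ} (hf : ∀ n, 0 ≤ f n) {i K : ℕ} (hi : i < K) :
    ∑ j ∈ Finset.range K, f ((i - j) + (j - i)) ≤ 2 * ∑ m ∈ Finset.range K, f m := by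
  classical
  have h1 : ∀ j ∈ Finset.range K, f ((i - j) + (j - i))
      ≤ (if j ≤ i then f (i - j) else 0) + (if i ≤ j then f (j - i) else 0) := by
    intro j _
    rcases le_total j i with h | h
    · rw [if_pos h]
      have : j - i = 0 := by omega
      rw [this, Nat.add_zero]
      have : 0 ≤ (if i ≤ j then f 0 else 0) := by split_ifs <;> simp [hf]
      linarith
    · rw [if_pos h]
      have : i - j = 0 := by omega
      rw [this, Nat.zero_add]
      have : 0 ≤ (if j ≤ i then f 0 else 0) := by split_ifs <;> simp [hf]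
      linarith
  refine (Finset.sum_le_sum h1).trans ?_
  rw [Finset.sum_add_distrib, two_mul]
  refine add_le_add ?_ ?_
  · rw [← Finset.sum_filter]
    have h2 : ∑ j ∈ (Finset.range K).filter (fun j => j ≤ i), f (i - j)
        = ∑ m ∈ ((Finset.range K).filter (fun j => j ≤ i)).image (fun j => i - j), f m := by
      rw [Finset.sum_image]
      intro a ha b hb hab
      simp only [Finset.coe_filter, Finset.mem_range, Set.mem_ofPred_eq] at ha hb
      simp only at hab
      omega
    rw [h2]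
    refine Finset.sum_le_sum_of_subset_of_nonneg ?_ (fun _ _ _ => hf _)
    intro m hm
    simp only [Finset.mem_image, Finset.mem_filter, Finset.mem_range] at hm
    obtain ⟨a, ha, rfl⟩ := hm
    rw [Finset.mem_range]
    omega
  · rw [← Finset.sum_filter]
    have h2 : ∑ j ∈ (Finset.range K).filter (fun j => i ≤ j), f (j - i)
        = ∑ m ∈ ((Finset.range K).filter (fun j => i ≤ j)).image (fun j => j - i), f m := by
      rw [Finset.sum_image]
      intro a ha b hb hab
      simp only [Finset.coe_filter, Finset.mem_range, Set.mem_ofPred_eq] at ha hb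
      simp only at hab
      omega
    rw [h2]
    refine Finset.sum_le_sum_of_subset_of_nonneg ?_ (fun _ _ _ => hf _)
    intro m hm
    simp only [Finset.mem_image, Finset.mem_filter, Finset.mem_range] at hm
    obtain ⟨a, ha, rfl⟩ := hm
    rw [Finset.mem_range]
    omega

lemma Bl_pair {α : ℝ} (hα : 2 < α) (hα3 : α < 3) (i j : ℕ) :
    0 ≤ Bl α (blkR i) (blkR j) ∧
    Bl α (blkR i) (blkR j)
      ≤ 12 / (α - 2) * ((((i - j) + (j - i) : ℕ) : ℝ) + 1) ^ (-(α - 2)) := by
  rcases le_total i j with h | h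
  · refine ⟨Bl_blk_nonneg α h, (Bl_blk_le hα h).trans ?_⟩
    have h1 : (i - j) + (j - i) = j - i := by omega
    rw [h1]
    exact bb_le hα hα3 _
  · rw [Bl_comm]
    refine ⟨Bl_blk_nonneg α h, (Bl_blk_le hα h).trans ?_⟩
    have h1 : (i - j) + (j - i) = i - j := by omega
    rw [h1]
    exact bb_le hα hα3 _

lemma exp_sub_one_le {x : ℝ} (hx : 0 ≤ x) : Real.exp x - 1 ≤ x + x ^ 2 * Real.exp x := by
  -- `exp x - 1 ≤ x exp x`, and `x exp x = x + x (exp x - 1) ≤ x + x^2 exp x`
  have h1 : Real.exp x - 1 ≤ x * Real.exp x := by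
    have h2 := Real.add_one_le_exp (-x)
    have h3 : Real.exp (-x) * Real.exp x = 1 := by rw [← Real.exp_add]; simp
    have h4 := Real.exp_pos x
    nlinarith
  nlinarith

/-- bound on the double sum, with `s = α - 2` and any `s < t < 1`, `t ≤ 2 s`. -/
lemma double_sum_le {α β t : ℝ} (hα : 2 < α) (hα3 : α < 3) (hβ : 0 < β)
    (ht : 0 < t) (ht1 : t < 1) (ht2 : t ≤ 2 * (α - 2)) (N : ℕ) :
    ∑ i ∈ Finset.range (N + 1), ∑ j ∈ Finset.range (N + 1),
        (Real.exp (2 * (β * Bl α (blkR i) (blkR j))) - 1)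
      ≤ ((N : ℝ) + 1) * (2 * ((24 * β / (α - 2)) * (((N : ℝ) + 1) ^ (1 - (α - 2)) / (1 - (α - 2)))
        + (24 * β / (α - 2)) ^ 2 * Real.exp (24 * β / (α - 2))
          * (((N : ℝ) + 1) ^ (1 - t) / (1 - t)))) := by
  set s := α - 2 with hs
  have hs0 : 0 < s := by rw [hs]; linarith
  have hs1 : s < 1 := by rw [hs]; linarith
  set X := 24 * β / s with hX
  have hX0 : 0 < X := by positivity
  set f : ℕ → ℝ := fun m => X * ((m : ℝ) + 1) ^ (-s)
    + X ^ 2 * Real.exp X * ((m : ℝ) + 1) ^ (-t) with hf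
  have hf0 : ∀ m, 0 ≤ f m := fun m => by positivity
  have hterm : ∀ i j : ℕ, Real.exp (2 * (β * Bl α (blkR i) (blkR j))) - 1
      ≤ f ((i - j) + (j - i)) := by
    intro i j
    obtain ⟨h1, h2⟩ := Bl_pair hα hα3 i j
    rw [← hs] at h2
    set m := (i - j) + (j - i) with hm
    have hm1 : (1 : ℝ) ≤ (m : ℝ) + 1 := by linarith [Nat.cast_nonneg (α := ℝ) m]
    set x := 2 * (β * Bl α (blkR i) (blkR j)) with hx
    have hx0 : 0 ≤ x := by positivity
    set u := ((m : ℝ) + 1) ^ (-s) with hu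
    have hu0 : 0 < u := by positivity
    have hu1 : u ≤ 1 := Real.rpow_le_one_of_one_le_of_nonpos hm1 (by linarith)
    have hxX : x ≤ X * u := by
      have : x ≤ 2 * (β * (12 / s * u)) := by
        rw [hx]
        have := mul_le_mul_of_nonneg_left h2 hβ.le
        linarith
      calc x ≤ 2 * (β * (12 / s * u)) := this
        _ = X * u := by rw [hX]; ring
    have hxX' : x ≤ X := by nlinarith
    have h3 := exp_sub_one_le hx0
    have h4 : Real.exp x ≤ Real.exp X := Real.exp_le_exp.2 hxX'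
    have h5 : x ^ 2 ≤ X ^ 2 * ((m : ℝ) + 1) ^ (-t) := by
      have h6 : x ^ 2 ≤ (X * u) ^ 2 := pow_le_pow_left₀ hx0 hxX 2
      have h7 : u ^ 2 ≤ ((m : ℝ) + 1) ^ (-t) := by
        rw [hu, ← Real.rpow_natCast, ← Real.rpow_mul (by linarith)]
        apply Real.rpow_le_rpow_of_exponent_le hm1
        push_cast
        linarith
      calc x ^ 2 ≤ (X * u) ^ 2 := h6
        _ = X ^ 2 * u ^ 2 := by ring
        _ ≤ X ^ 2 * ((m : ℝ) + 1) ^ (-t) := mul_le_mul_of_nonneg_left h7 (by positivity)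
    have h8 : x ^ 2 * Real.exp x ≤ (X ^ 2 * ((m : ℝ) + 1) ^ (-t)) * Real.exp X :=
      mul_le_mul h5 h4 (Real.exp_pos _).le (by positivity)
    simp only [hf]
    calc Real.exp x - 1 ≤ x + x ^ 2 * Real.exp x := h3
      _ ≤ X * u + (X ^ 2 * ((m : ℝ) + 1) ^ (-t)) * Real.exp X := add_le_add hxX h8
      _ = X * u + X ^ 2 * Real.exp X * ((m : ℝ) + 1) ^ (-t) := by ring
  have hsum : ∑ m ∈ Finset.range (N + 1), f m
      ≤ X * (((N : ℝ) + 1) ^ (1 - s) / (1 - s))
        + X ^ 2 * Real.exp X * (((N : ℝ) + 1) ^ (1 - t) / (1 - t)) := by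
    simp only [hf]
    rw [Finset.sum_add_distrib, ← Finset.mul_sum, ← Finset.mul_sum]
    have h1 := sum_rpow_le hs0 hs1 (N + 1)
    have h2 := sum_rpow_le ht ht1 (N + 1)
    push_cast at h1 h2
    exact add_le_add (mul_le_mul_of_nonneg_left h1 hX0.le)
      (mul_le_mul_of_nonneg_left h2 (by positivity))
  calc ∑ i ∈ Finset.range (N + 1), ∑ j ∈ Finset.range (N + 1),
        (Real.exp (2 * (β * Bl α (blkR i) (blkR j))) - 1)
      ≤ ∑ i ∈ Finset.range (N + 1), (2 * ∑ m ∈ Finset.range (N + 1), f m) := by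
        refine Finset.sum_le_sum (fun i hi => ?_)
        rw [Finset.mem_range] at hi
        refine le_trans (Finset.sum_le_sum (fun j _ => hterm i j)) (sum_dist_le hf0 hi)
    _ = ((N : ℝ) + 1) * (2 * ∑ m ∈ Finset.range (N + 1), f m) := by
        rw [Finset.sum_const, Finset.card_range, nsmul_eq_mul]
        push_cast
        ring
    _ ≤ _ := by
        refine mul_le_mul_of_nonneg_left ?_ (by positivity)
        exact mul_le_mul_of_nonneg_left hsum (by norm_num)

/-- lower bound for large `N` with a constant of the right order in `β` -/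
theorem lower_large {α β : ℝ} (hα : 2 < α) (hα3 : α < 3) (hβ : 0 < β) :
    ∃ N0 : ℕ, ∀ N : ℕ, N0 ≤ N →
      (α - 2) * (3 - α) / (96 * β) * ((N : ℝ) + 1) ^ (α - 2) ≤ Ms α β N / Zs α β N := by
  set s := α - 2 with hs
  have hs0 : 0 < s := by rw [hs]; linarith
  have hs1 : s < 1 := by rw [hs]; linarith
  set X := 24 * β / s with hX
  have hX0 : 0 < X := by positivity
  obtain ⟨t, ht0, ht1, ht2, hst⟩ : ∃ t : ℝ, 0 < t ∧ t < 1 ∧ t ≤ 2 * s ∧ s < t :=
    ⟨min (2 * s) ((1 + s) / 2), lt_min (by linarith) (by linarith),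
      lt_of_le_of_lt (min_le_right _ _) (by linarith), min_le_left _ _,
      lt_min (by linarith) (by linarith)⟩
  -- choose `N0`
  have htend : Filter.Tendsto (fun N : ℕ => ((N : ℝ) + 1) ^ (t - s)) Filter.atTop Filter.atTop :=
    (tendsto_rpow_atTop (by linarith)).comp
      (Filter.tendsto_atTop_add_const_right _ _ tendsto_natCast_atTop_atTop)
  obtain ⟨N0, hN0⟩ := (Filter.eventually_atTop.1
    (htend.eventually_ge_atTop (X * Real.exp X * (1 - s) / (1 - t))))
  refine ⟨N0, fun N hN => ?_⟩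
  have hN' := hN0 N hN
  have hZ := Zs_pos (α := α) (by linarith) hβ N
  have hcr := cr_chain (α := α) (by linarith) hβ N
  have hds := double_sum_le hα hα3 hβ ht0 ht1 (by rw [← hs]; exact ht2) N
  rw [← hs] at hds
  set K := (N : ℝ) + 1 with hK
  have hK0 : 0 < K := by positivity
  have hM : 0 ≤ Ms α β N := tsum_nonneg (fun _ => mul_nonneg (sq_nonneg _) (Real.exp_pos _).le)
  have h1t : 0 < 1 - t := by linarith
  have h1s : 0 < 1 - s := by linarith
  have hcomp : X ^ 2 * Real.exp X * (K ^ (1 - t) / (1 - t)) ≤ X * (K ^ (1 - s) / (1 - s)) := by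
    have e1 : K ^ (1 - s) = K ^ (1 - t) * K ^ (t - s) := by
      rw [← Real.rpow_add hK0]
      congr 1
      ring
    rw [e1]
    have hKt : 0 < K ^ (1 - t) := Real.rpow_pos_of_pos hK0 _
    have h2 : X * Real.exp X / (1 - t) ≤ K ^ (t - s) / (1 - s) := by
      rw [div_le_div_iff₀ h1t h1s]
      rw [div_le_iff₀ h1t] at hN'
      exact hN'
    calc X ^ 2 * Real.exp X * (K ^ (1 - t) / (1 - t))
        = (X * K ^ (1 - t)) * (X * Real.exp X / (1 - t)) := by ring
      _ ≤ (X * K ^ (1 - t)) * (K ^ (t - s) / (1 - s)) :=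
          mul_le_mul_of_nonneg_left h2 (by positivity)
      _ = X * (K ^ (1 - t) * K ^ (t - s) / (1 - s)) := by ring
  have hS : K ^ 2 * Zs α β N ≤ (K * (2 * (2 * (X * (K ^ (1 - s) / (1 - s)))))) * Ms α β N := by
    refine hcr.trans (mul_le_mul_of_nonneg_right (hds.trans ?_) hM)
    refine mul_le_mul_of_nonneg_left ?_ hK0.le
    linarith
  rw [le_div_iff₀ hZ]
  have e2 : K ^ (1 - s) = K / K ^ s := by
    rw [Real.rpow_sub hK0, Real.rpow_one]
  have hKs : 0 < K ^ s := Real.rpow_pos_of_pos hK0 _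
  rw [e2] at hS
  have h3 : K * (2 * (2 * (X * (K / K ^ s / (1 - s))))) * Ms α β N
      = (K ^ 2) * ((96 * β / (s * (1 - s))) * (Ms α β N / K ^ s)) := by
    rw [hX]
    field_simp
    ring
  rw [h3] at hS
  have h4 := le_of_mul_le_mul_left hS (by positivity : (0 : ℝ) < K ^ 2)
  have h5 : s * (3 - α) = s * (1 - s) := by rw [hs]; ring
  rw [h5]
  calc s * (1 - s) / (96 * β) * K ^ s * Zs α β N
      ≤ s * (1 - s) / (96 * β) * K ^ s * (96 * β / (s * (1 - s)) * (Ms α β N / K ^ s)) :=
        mul_le_mul_of_nonneg_left h4 (by positivity)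
    _ = Ms α β N := by
        field_simp

end Pool.Agent.Y977.DG
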